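import Pool.Agent.N931.PN.Stm5
import Pool.Agent.H984R4.NP.ModelLem

/-!
Project PN, leaf FST: first moments (helper547).
-/

set_option autoImplicit false
set_option linter.all false
set_option maxHeartbeats 1000000

namespace Pool.Agent.N547.PN.Fst

open H974 H12S H389NS H984N H984P H342P Finset
open Pool.Agent.N116.EW
open Pool.Agent.N931.PN

/-- The expectation of the derivative of the indicator is the probability that the edge is
pivotal. -/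
theorem piv (D : Dm) {m : ℤ} (hm : m ≤ D.r) {e : Edg} (he : e ∈ RE D.l m 0 D.h) :
    Ex hp D.edges (dif e (fun G => ind (KM D m G))) =
      PQ (1 / 2) (RE D.l m 0 D.h) (fun F => Pv (wa D) (lsd m 0 D.h) e ↑F) := by
  have hsub : RE D.l m 0 D.h ⊆ D.edges := RE_subset le_rfl hm le_rfl le_rfl
  have h1 : ∀ F : Finset Edg, dif e (fun G => ind (KM D m G)) F =
      ind (Pv (wa D) (lsd m 0 D.h) e ((↑F : Set Edg) ∩ ↑(RE D.l m 0 D.h))) := by
    intro F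
    have e1 : ((↑(insert e F) : Set Edg) ∩ ↑(RE D.l m 0 D.h)) =
        insert e ((↑F : Set Edg) ∩ ↑(RE D.l m 0 D.h)) := by
      rw [Finset.coe_insert, Set.insert_inter_of_mem (by exact_mod_cast he)]
    have e2 : ((↑(F.erase e) : Set Edg) ∩ ↑(RE D.l m 0 D.h)) =
        ((↑F : Set Edg) ∩ ↑(RE D.l m 0 D.h)) \ {e} := by
      rw [Finset.coe_erase]
      ext x
      simp only [Set.mem_inter_iff, Set.mem_diff, Set.mem_singleton_iff]
      tauto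
    unfold dif KM Pv
    beta_reduce
    rw [e1, e2]
    set X := (↑F : Set Edg) ∩ ↑(RE D.l m 0 D.h) with hX
    by_cases a : Cn (wa D) (lsd m 0 D.h) (insert e X)
    · by_cases b : Cn (wa D) (lsd m 0 D.h) (X \ {e})
      · rw [ind_of a, ind_of b, ind_not_of (fun h => h.2 b)]; norm_num
      · rw [ind_of a, ind_not_of b, ind_of ⟨a, b⟩]; norm_num
    · have b : ¬ Cn (wa D) (lsd m 0 D.h) (X \ {e}) := fun h =>
        a (Cn_mono (Set.diff_subset.trans (Set.subset_insert _ _)) h)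
      rw [ind_not_of a, ind_not_of b, ind_not_of (fun h => a h.1)]; norm_num
  have h2 : Ex hp D.edges (dif e (fun G => ind (KM D m G))) =
      Pr hp D.edges (fun F => Pv (wa D) (lsd m 0 D.h) e
        ((↑F : Set Edg) ∩ ↑(RE D.l m 0 D.h))) := by
    unfold Pr
    exact Ex_congr fun F _ => h1 F
  rw [h2, Pr_local hsub]
  · apply Pr_congr
    intro F hF
    rw [Set.inter_eq_left.2 (by exact_mod_cast hF)]
  · intro F _
    rw [Finset.coe_inter, Set.inter_assoc, Set.inter_self]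

theorem dif_hK (D : Dm) (δ : ℝ) (m1 m2 : ℤ) (e : Edg) (F : Finset Edg) :
    dif e (hK D δ m1 m2) F = δ * ∑ m ∈ Finset.Ioc m1 m2, dif e (fun G => ind (KM D m G)) F := by
  unfold dif hK
  rw [← mul_sub, ← Finset.sum_sub_distrib]

theorem Ex_hK (D : Dm) (δ : ℝ) (m1 m2 : ℤ) (e : Edg) :
    Ex hp D.edges (dif e (hK D δ m1 m2)) =
      δ * ∑ m ∈ Finset.Ioc m1 m2, Ex hp D.edges (dif e (fun G => ind (KM D m G))) := by
  have h1 : Ex hp D.edges (dif e (hK D δ m1 m2)) =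
      Ex hp D.edges (fun F => δ * ∑ m ∈ Finset.Ioc m1 m2, dif e (fun G => ind (KM D m G)) F) :=
    Ex_congr fun F _ => dif_hK D δ m1 m2 e F
  rw [h1, Ex_mul_left, Ex_sum]

theorem mem_RE_src {a b c d : ℤ} {e : Edg} (he : e ∈ RE a b c d) :
    a ≤ (src e).1 ∧ (src e).1 ≤ b ∧ c ≤ (src e).2 ∧ (src e).2 ≤ d := by
  unfold RE at he
  simp only [Finset.mem_filter, Finset.mem_product, Finset.mem_Icc] at he
  exact ⟨he.1.1.1, he.1.1.2, he.1.2.1.1, he.1.2.1.2⟩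

/-- One column. -/
theorem column (h2 : S_DOM) {B Mr : ℕ} {Ci c0 κM : ℝ} (hc0 : 0 < c0)
    (hin : ∀ r : ℕ, Mr ≤ r → ∀ (S : Finset Edg) (I J I' J' : Set Vtx) (p : ℤ × ℤ),
      blk p (4 * (B * r)) ⊆ S → DomD S I J I' J' → FarS (I ∪ J) p (4 * (B * r)) →
      FarS (I' ∪ J') p (4 * (B * r)) →
      (PQ (1 / 2) S (fun F => BPv I J (blk p (B * r - 1)) ↑F) - c0 / 2) * (r:ℝ) ^ (3/4 : ℝ) ≤
        Ci * ∑ e ∈ blk p (B * r), PQ (1 / 2) S (fun F => Pv I J e ↑F))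
    (hmac : ∀ n : ℕ, 1 ≤ n → ∀ q : ℝ, 1/4 ≤ q → q ≤ 3/4 → |q - 1/2| ≤ (n:ℝ) ^ (-(3/4 : ℝ)) →
      ∀ D : Dm, D.Shape κM n → ∀ (m : ℤ) (p : ℤ × ℤ) (ρ : ℕ), m ≤ D.r → κM * n ≤ ρ → 1 ≤ ρ →
      ((max D.t 0 : ℤ) : ℝ) + κM * n + ρ ≤ p.1 → (p.1 : ℝ) + κM * n + ρ ≤ m →
      κM * n + ρ ≤ p.2 → (p.2 : ℝ) + κM * n + ρ ≤ D.h →
      c0 ≤ PQ q (RE D.l m 0 D.h) (fun F => BPv (wa D) (lsd m 0 D.h) (blk p ρ) ↑F))
    {N : ℕ} (hN : 1 ≤ N) {D : Dm} (hD : D.Shape κM N) {m : ℤ} (hm : m ≤ D.r) {p : ℤ × ℤ} {r : ℕ}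
    (hr : Mr ≤ r) (hs : 2 ≤ B * r) (hκ : κM * N ≤ ((B * r - 1 : ℕ) : ℝ))
    (hκ0 : 0 ≤ κM * N)
    (g1 : max D.t 0 + 8 * ((B * r : ℕ) : ℤ) ≤ p.1) (g2 : p.1 + 8 * ((B * r : ℕ) : ℤ) ≤ m)
    (g3 : 8 * ((B * r : ℕ) : ℤ) ≤ p.2) (g4 : p.2 + 8 * ((B * r : ℕ) : ℤ) ≤ D.h) :
    c0 / 2 * (r:ℝ) ^ (3/4 : ℝ) ≤
      Ci * ∑ e ∈ blk p (B * r), PQ (1 / 2) (RE D.l m 0 D.h)
        (fun F => Pv (wa D) (lsd m 0 D.h) e ↑F) := by
  obtain ⟨s, hsd⟩ : ∃ s : ℕ, s = B * r := ⟨_, rfl⟩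
  rw [← hsd] at hs hκ g1 g2 g3 g4
  have hNr : (1:ℝ) ≤ N := by exact_mod_cast hN
  obtain ⟨ρ, hρ⟩ : ∃ ρ : ℕ, ρ = s - 1 := ⟨_, rfl⟩
  rw [← hρ] at hκ
  have hρs : (ρ:ℝ) + 1 = s := by
    have : ρ + 1 = s := by omega
    exact_mod_cast this
  have hρ1 : 1 ≤ ρ := by omega
  have hs2r : (2:ℝ) ≤ s := by exact_mod_cast hs
  have g1r : ((max D.t 0 : ℤ) : ℝ) + 8 * (s:ℝ) ≤ p.1 := by exact_mod_cast g1
  have g2r : (p.1:ℝ) + 8 * (s:ℝ) ≤ m := by exact_mod_cast g2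
  have g3r : 8 * (s:ℝ) ≤ p.2 := by exact_mod_cast g3
  have g4r : (p.2:ℝ) + 8 * (s:ℝ) ≤ D.h := by exact_mod_cast g4
  have hP := hmac N hN (1/2) (by norm_num) (by norm_num) (by
    rw [sub_self, abs_zero]; positivity) D hD m p ρ hm hκ hρ1 (by linarith) (by linarith)
    (by linarith) (by linarith)
  have hl0 := hD.ok.l_neg
  obtain ⟨a0, ha0⟩ : ∃ a0 : ℤ, a0 = max D.t 0 := ⟨_, rfl⟩
  rw [← ha0] at g1
  have ha00 : 0 ≤ a0 := by rw [ha0]; exact le_max_right _ _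
  have ha0t : D.t ≤ a0 := by rw [ha0]; exact le_max_left _ _
  obtain ⟨I', J', hdom, hfar⟩ := h2 D hD.ok m (by rw [← ha0]; omega) hm
  have hmain := hin r hr (RE D.l m 0 D.h) (wa D)
    (lsd m 0 D.h) I' J' p (by
      rw [← hsd]
      unfold blk
      apply RE_subset <;> push_cast <;> omega) hdom (by
      rw [← hsd]
      rintro v (hv | hv)
      · left
        have hv1 : v.1 ≤ a0 := by
          rcases hv with hv | hv | hv
          · exact hv.2.2.trans ha0t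
          · rw [hv.1]; omega
          · exact hv.2.2.trans ha00
        rw [abs_sub_comm, le_abs]
        left; push_cast; omega
      · left
        have hv1 : v.1 = m := hv.1
        rw [le_abs]
        left; push_cast; omega) (by
      rw [← hsd]
      intro f hf
      right
      rcases hfar f hf with hf | hf
      · rw [abs_sub_comm, le_abs]
        left; push_cast; omega
      · rw [le_abs]
        left; push_cast; omega)
  refine le_trans ?_ hmain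
  apply mul_le_mul_of_nonneg_right _ (by positivity)
  rw [← hsd, ← hρ]
  linarith

theorem main : S_INWB → S_DOM → S_MAC → S_FST := by
  intro hINWB hDOM hMAC R x1 x2 hx1 hx12 hx2
  obtain ⟨κ, S, δs, hκ, hS, hδs, hδs1, hshape⟩ := R.shape
  obtain ⟨T, hT⟩ : ∃ T, T = max R.t 0 := ⟨_, rfl⟩
  rw [← hT] at hx1
  have hT0 : 0 ≤ T := by rw [hT]; exact le_max_right _ _
  have hTt : R.t ≤ T := by rw [hT]; exact le_max_left _ _
  obtain ⟨L, hL⟩ : ∃ L, L = min (x1 - T) R.H := ⟨_, rfl⟩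
  have hL0 : 0 < L := by rw [hL]; exact lt_min (by linarith) R.hH
  have hLx : L ≤ x1 - T := by rw [hL]; exact min_le_left _ _
  have hLH : L ≤ R.H := by rw [hL]; exact min_le_right _ _
  obtain ⟨κM, hκM⟩ : ∃ κM, κM = min (κ / 2) (L / (1024 * S)) := ⟨_, rfl⟩
  have hκM0 : 0 < κM := by rw [hκM]; exact lt_min (by positivity) (by positivity)
  have hκM1 : κM ≤ κ / 2 := by rw [hκM]; exact min_le_left _ _
  have hκM2 : κM ≤ L / (1024 * S) := by rw [hκM]; exact min_le_right _ _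
  obtain ⟨c0, hc0, hmac⟩ := hMAC κM hκM0
  obtain ⟨B, Mr, Ci, hB, hMr, hCi, hin⟩ := hINWB (c0 / 2) (by positivity)
  have hBr : (2:ℝ) ≤ B := by exact_mod_cast hB
  have hB0 : (0:ℝ) < B := by linarith
  have hMrr : (1:ℝ) ≤ Mr := by exact_mod_cast hMr
  obtain ⟨C1, hC1⟩ : ∃ C1 : ℝ, C1 = (L / (128 * B)) ^ (3/4 : ℝ) := ⟨_, rfl⟩
  have hC10 : 0 < C1 := by rw [hC1]; positivity
  refine ⟨(x2 - x1) / 2 * (c0 / 2 / Ci * C1), L / 4,
    min (min δs S) (min (min (L / (256 * B)) (L / (128 * B * (Mr + 1)))) ((x2 - x1) / 2)),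
    by have : 0 < x2 - x1 := by linarith
       positivity, by positivity,
    lt_min (lt_min hδs hS) (lt_min (lt_min (by positivity) (by positivity)) (by linarith)), ?_⟩
  intro δ hδ hle
  have d1 : δ ≤ δs := hle.trans ((min_le_left _ _).trans (min_le_left _ _))
  have d2 : δ ≤ S := hle.trans ((min_le_left _ _).trans (min_le_right _ _))
  have d3 : δ ≤ L / (256 * B) :=
    hle.trans ((min_le_right _ _).trans ((min_le_left _ _).trans (min_le_left _ _)))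
  have d4 : δ ≤ L / (128 * B * (Mr + 1)) :=
    hle.trans ((min_le_right _ _).trans ((min_le_left _ _).trans (min_le_right _ _)))
  have d5 : δ ≤ (x2 - x1) / 2 := hle.trans ((min_le_right _ _).trans (min_le_right _ _))
  have d3' : 256 * (B * δ) ≤ L := by
    rw [le_div_iff₀ (by positivity)] at d3
    linarith
  have d4' : 128 * (B * ((Mr + 1) * δ)) ≤ L := by
    rw [le_div_iff₀ (by positivity)] at d4
    linarith
  have d3'' : 512 * δ ≤ L := by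
    have := mul_le_mul_of_nonneg_right hBr hδ.le
    linarith
  -- the shape
  obtain ⟨n, hn⟩ : ∃ n, n = S / δ := ⟨_, rfl⟩
  have hn1 : 1 ≤ n := by rw [hn, le_div_iff₀ hδ]; linarith
  have hsh := hshape δ hδ d1
  rw [← hn] at hsh
  obtain ⟨N, hN⟩ : ∃ N : ℕ, N = ⌈n⌉₊ := ⟨_, rfl⟩
  have hnN : n ≤ N := by rw [hN]; exact Nat.le_ceil n
  have hNn : (N:ℝ) ≤ 2 * n := by
    have := Nat.ceil_lt_add_one (a := n) (by linarith)
    rw [← hN] at this
    linarith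
  have hN1 : 1 ≤ N := by
    have : (1:ℝ) ≤ N := hn1.trans hnN
    exact_mod_cast this
  have hκN : κM * N ≤ κ * n := by
    calc κM * N ≤ κ / 2 * (2 * n) := mul_le_mul hκM1 hNn (by positivity) (by positivity)
      _ = κ * n := by ring
  obtain ⟨D, hDd⟩ : ∃ D, D = R.dm δ := ⟨_, rfl⟩
  rw [← hDd] at hsh ⊢
  have hshape' : D.Shape κM N :=
    ⟨hsh.ok, hκN.trans hsh.l_ge, hκN.trans hsh.r_ge, hκN.trans hsh.h_ge, hsh.w_le.trans hnN,
      hsh.h_le.trans hnN⟩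
  have hκN0 : 0 ≤ κM * N := by positivity
  have hnδ : n * δ = S := by rw [hn]; field_simp
  have hκNδ : κM * N * δ ≤ L / 512 := by
    have a1 : κM * N * δ ≤ κM * (2 * S) := by
      calc κM * N * δ = κM * (N * δ) := by ring
        _ ≤ κM * (2 * S) := by
          apply mul_le_mul_of_nonneg_left _ hκM0.le
          calc (N:ℝ) * δ ≤ 2 * n * δ := mul_le_mul_of_nonneg_right hNn hδ.le
            _ = 2 * S := by rw [← hnδ]; ring
    have a2 : κM * (2 * S) ≤ L / (1024 * S) * (2 * S) :=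
      mul_le_mul_of_nonneg_right hκM2 (by positivity)
    have a3 : L / (1024 * S) * (2 * S) = L / 512 := by field_simp; norm_num
    linarith
  -- the radius
  obtain ⟨r, hr⟩ : ∃ r : ℕ, r = ⌊L / (64 * B * δ)⌋₊ := ⟨_, rfl⟩
  have hr1 : (r : ℝ) ≤ L / (64 * B * δ) := by rw [hr]; exact Nat.floor_le (by positivity)
  have hr2 : L / (64 * B * δ) < r + 1 := by rw [hr]; exact Nat.lt_floor_add_one _
  have hr1' : 64 * (B * r * δ) ≤ L := by
    rw [le_div_iff₀ (by positivity)] at hr1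
    linarith
  have hr2' : L < 64 * (B * r * δ) + 64 * (B * δ) := by
    rw [div_lt_iff₀ (by positivity)] at hr2
    linarith
  have hrM : Mr ≤ r := by
    have h1 : (Mr : ℝ) < r + 1 := by
      refine lt_of_le_of_lt ?_ hr2
      rw [le_div_iff₀ (by positivity)]
      have := mul_pos hB0 hδ
      have : 0 ≤ (Mr : ℝ) * (B * δ) := by positivity
      linarith
    have h2 : Mr < r + 1 := by exact_mod_cast h1
    omega
  have hr1n : 1 ≤ r := hMr.trans hrM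
  have hs2 : 2 ≤ B * r := by
    calc 2 = 2 * 1 := rfl
      _ ≤ B * r := Nat.mul_le_mul hB hr1n
  obtain ⟨s, hs⟩ : ∃ s : ℝ, s = ((B * r : ℕ) : ℝ) := ⟨_, rfl⟩
  have hsBr : s = B * r := by rw [hs]; push_cast; ring
  have hs1 : 64 * (s * δ) ≤ L := by rw [hsBr]; exact hr1'
  have hs1' : 3 * L / 4 ≤ 64 * (s * δ) := by rw [hsBr]; linarith
  have hs0 : 2 ≤ s := by rw [hs]; exact_mod_cast hs2
  have hρ : κM * N ≤ ((B * r - 1 : ℕ) : ℝ) := by
    rw [Nat.cast_sub (by omega), ← hs]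
    push_cast
    have : κM * N * δ ≤ (s - 1) * δ := by linarith
    exact le_of_mul_le_mul_right this hδ
  -- the centre
  obtain ⟨p, hpc⟩ : ∃ p : ℤ × ℤ, p = (⌊(T + x1) / (2 * δ)⌋, ⌊R.H / (2 * δ)⌋) := ⟨_, rfl⟩
  have hp1 : (p.1 : ℝ) ≤ (T + x1) / (2 * δ) := by rw [hpc]; exact Int.floor_le _
  have hp1' : (T + x1) / (2 * δ) < p.1 + 1 := by rw [hpc]; exact Int.lt_floor_add_one _
  have hp2 : (p.2 : ℝ) ≤ R.H / (2 * δ) := by rw [hpc]; exact Int.floor_le _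
  have hp2' : R.H / (2 * δ) < p.2 + 1 := by rw [hpc]; exact Int.lt_floor_add_one _
  rw [le_div_iff₀ (by positivity)] at hp1 hp2
  rw [div_lt_iff₀ (by positivity)] at hp1' hp2'
  have hdt : D.t = ⌊R.t / δ⌋ := by rw [hDd]; rfl
  have hdr : D.r = ⌈R.B / δ⌉ - 1 := by rw [hDd]; rfl
  have hdh : D.h = ⌈R.H / δ⌉ - 2 := by rw [hDd]; rfl
  have hmt : ((max D.t 0 : ℤ) : ℝ) * δ ≤ T := by
    rw [hdt]
    push_cast
    have a1 : (⌊R.t / δ⌋ : ℝ) ≤ R.t / δ := Int.floor_le _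
    rw [le_div_iff₀ hδ] at a1
    rw [max_mul_of_nonneg _ _ hδ.le]
    apply max_le
    · linarith
    · linarith
  have hDr : R.B < (D.r : ℝ) * δ + 2 * δ ∧ R.B ≤ (D.r : ℝ) * δ + δ := by
    have a1 : R.B / δ ≤ ⌈R.B / δ⌉ := Int.le_ceil _
    rw [div_le_iff₀ hδ] at a1
    rw [hdr]
    push_cast
    constructor <;> linarith
  have hDh : R.H ≤ (D.h : ℝ) * δ + 2 * δ := by
    have a1 : R.H / δ ≤ ⌈R.H / δ⌉ := Int.le_ceil _
    rw [div_le_iff₀ hδ] at a1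
    rw [hdh]
    push_cast
    linarith
  have hcast : ∀ a b : ℤ, (a : ℝ) * δ ≤ b * δ → a ≤ b := by
    intro a b h
    have := le_of_mul_le_mul_right h hδ
    exact_mod_cast this
  have hsZ : (((B * r : ℕ) : ℤ) : ℝ) = s := by rw [hs]; push_cast; ring
  have g1 : max D.t 0 + 8 * ((B * r : ℕ) : ℤ) ≤ p.1 := by
    apply hcast
    rw [Int.cast_add, Int.cast_mul, hsZ]
    push_cast at hmt ⊢
    linarith
  have g3 : 8 * ((B * r : ℕ) : ℤ) ≤ p.2 := by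
    apply hcast
    rw [Int.cast_mul, hsZ]
    push_cast
    linarith
  have g4 : p.2 + 8 * ((B * r : ℕ) : ℤ) ≤ D.h := by
    apply hcast
    rw [Int.cast_add, Int.cast_mul, hsZ]
    push_cast
    linarith
  have hmr : ∀ m : ℤ, m ≤ ⌊x2 / δ⌋ → m ≤ D.r := by
    intro m hm
    rw [hdr]
    have a1 : (⌊x2 / δ⌋ : ℝ) < ⌈R.B / δ⌉ := by
      refine lt_of_le_of_lt (Int.floor_le _) (lt_of_lt_of_le ?_ (Int.le_ceil _))
      exact div_lt_div_of_pos_right hx2 hδ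
    have a2 : ⌊x2 / δ⌋ < ⌈R.B / δ⌉ := by exact_mod_cast a1
    omega
  have g2 : ∀ m : ℤ, ⌊x1 / δ⌋ < m → p.1 + 8 * ((B * r : ℕ) : ℤ) ≤ m := by
    intro m hm
    have a1 : x1 / δ < ⌊x1 / δ⌋ + 1 := Int.lt_floor_add_one _
    rw [div_lt_iff₀ hδ] at a1
    have a2 : ((⌊x1 / δ⌋ : ℤ) : ℝ) + 1 ≤ m := by exact_mod_cast hm
    have a3 := mul_le_mul_of_nonneg_right a2 hδ.le
    apply hcast
    rw [Int.cast_add, Int.cast_mul, hsZ]
    push_cast
    linarith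
  obtain ⟨Q, hQ⟩ : ∃ Q, Q = blk p (B * r) := ⟨_, rfl⟩
  have hl0 := hsh.ok.l_neg
  have hQsub : ∀ m : ℤ, ⌊x1 / δ⌋ < m → Q ⊆ RE D.l m 0 D.h := by
    intro m hm
    rw [hQ]
    unfold blk
    have := g2 m hm
    have := le_max_right D.t 0
    apply RE_subset <;> omega
  have hx12f : ⌊x1 / δ⌋ < ⌊x2 / δ⌋ := by
    have a1 : ⌊x1 / δ⌋ + 1 ≤ ⌊x2 / δ⌋ := by
      rw [Int.le_floor]
      push_cast
      have a2 : (⌊x1 / δ⌋ : ℝ) ≤ x1 / δ := Int.floor_le _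
      have a3 : x1 / δ + 1 ≤ x2 / δ := by
        rw [div_add_one hδ.ne']
        exact div_le_div_of_nonneg_right (by linarith) hδ.le
      linarith
    omega
  have hQD : Q ⊆ D.edges :=
    (hQsub _ hx12f).trans (RE_subset le_rfl (hmr _ le_rfl) le_rfl le_rfl)
  refine ⟨Q, hQD, ?_, ?_⟩
  · intro e he
    rw [hQ] at he
    unfold blk at he
    obtain ⟨b1, b2, b3, b4⟩ := mem_RE_src he
    have b1r : (p.1 : ℝ) - s ≤ (src e).1 := by
      rw [← hsZ]; exact_mod_cast b1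
    have b2r : ((src e).1 : ℝ) ≤ p.1 + s := by
      rw [← hsZ]; exact_mod_cast b2
    have b3r : (p.2 : ℝ) - s ≤ (src e).2 := by
      rw [← hsZ]; exact_mod_cast b3
    have b4r : ((src e).2 : ℝ) ≤ p.2 + s := by
      rw [← hsZ]; exact_mod_cast b4
    have hl0r : (D.l : ℝ) < 0 := by exact_mod_cast hl0
    have b1d := mul_le_mul_of_nonneg_right b1r hδ.le
    have b2d := mul_le_mul_of_nonneg_right b2r hδ.le
    have b3d := mul_le_mul_of_nonneg_right b3r hδ.le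
    have b4d := mul_le_mul_of_nonneg_right b4r hδ.le
    have hld := mul_neg_of_neg_of_pos hl0r hδ
    obtain ⟨hDr1, hDr2⟩ := hDr
    clear hin hmac hshape hle hcast hmr g2 hQsub hshape'
    refine ⟨?_, ?_, ?_⟩
    · unfold Dm.bd
      push_cast
      rw [div_le_iff₀ hδ]
      rw [min_mul_of_nonneg _ _ hδ.le, min_mul_of_nonneg _ _ hδ.le, min_mul_of_nonneg _ _ hδ.le]
      refine le_min (le_min ?_ ?_) (le_min ?_ ?_)
      · linarith
      · linarith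
      · linarith
      · linarith
    · rw [div_le_iff₀ hδ, ← hT]
      linarith
    · rw [le_div_iff₀ hδ]
      linarith
  · -- the sum
    have h1 : ∑ e ∈ Q, Ex hp D.edges (dif e (hK D δ ⌊x1 / δ⌋ ⌊x2 / δ⌋)) =
        δ * ∑ m ∈ Finset.Ioc ⌊x1 / δ⌋ ⌊x2 / δ⌋, ∑ e ∈ Q,
          PQ (1 / 2) (RE D.l m 0 D.h) (fun F => Pv (wa D) (lsd m 0 D.h) e ↑F) := by
      rw [Finset.sum_comm, Finset.mul_sum]
      refine Finset.sum_congr rfl fun e he => ?_
      rw [Ex_hK]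
      congr 1
      refine Finset.sum_congr rfl fun m hm => ?_
      rw [Finset.mem_Ioc] at hm
      exact piv D (hmr m hm.2) (hQsub m hm.1 he)
    rw [h1]
    have hcol : ∀ m ∈ Finset.Ioc ⌊x1 / δ⌋ ⌊x2 / δ⌋, c0 / 2 / Ci * (r:ℝ) ^ (3/4 : ℝ) ≤
        ∑ e ∈ Q, PQ (1 / 2) (RE D.l m 0 D.h) (fun F => Pv (wa D) (lsd m 0 D.h) e ↑F) := by
      intro m hm
      rw [Finset.mem_Ioc] at hm
      have := column hDOM hc0 hin hmac hN1 hshape' (hmr m hm.2) hrM hs2 hρ hκN0 g1 (g2 m hm.1)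
        g3 g4
      rw [← hQ] at this
      rw [div_mul_eq_mul_div, div_le_iff₀ hCi]
      linarith
    have hsum := Finset.sum_le_sum hcol
    rw [Finset.sum_const, nsmul_eq_mul, Int.card_Ioc] at hsum
    have hcard : ((⌊x2 / δ⌋ - ⌊x1 / δ⌋).toNat : ℝ) = (⌊x2 / δ⌋ : ℝ) - ⌊x1 / δ⌋ := by
      have a1 : (((⌊x2 / δ⌋ - ⌊x1 / δ⌋).toNat : ℤ) : ℝ) = ((⌊x2 / δ⌋ - ⌊x1 / δ⌋ : ℤ) : ℝ) := by
        rw [Int.toNat_of_nonneg (by omega)]
      push_cast at a1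
      exact a1
    rw [hcard] at hsum
    have hlen : (x2 - x1) / 2 ≤ δ * ((⌊x2 / δ⌋ : ℝ) - ⌊x1 / δ⌋) := by
      have a1 : x2 / δ < ⌊x2 / δ⌋ + 1 := Int.lt_floor_add_one _
      have a2 : (⌊x1 / δ⌋ : ℝ) ≤ x1 / δ := Int.floor_le _
      rw [div_lt_iff₀ hδ] at a1
      rw [le_div_iff₀ hδ] at a2
      linarith
    have hrp : C1 * δ ^ (-(3 / 4) : ℝ) ≤ (r:ℝ) ^ (3/4 : ℝ) := by
      rw [hC1, Real.rpow_neg hδ.le, ← Real.inv_rpow hδ.le, ← Real.mul_rpow (by positivity)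
        (by positivity)]
      apply Real.rpow_le_rpow (by positivity) _ (by norm_num)
      rw [← div_eq_mul_inv, div_div, div_le_iff₀ (by positivity)]
      have := mul_pos hB0 hδ
      linarith
    have hK0 : 0 ≤ c0 / 2 / Ci := by positivity
    have hlen0 : 0 ≤ (x2 - x1) / 2 := by linarith
    calc (x2 - x1) / 2 * (c0 / 2 / Ci * C1) * δ ^ (-(3 / 4) : ℝ) =
        (x2 - x1) / 2 * (c0 / 2 / Ci * (C1 * δ ^ (-(3 / 4) : ℝ))) := by ring
      _ ≤ (x2 - x1) / 2 * (c0 / 2 / Ci * (r:ℝ) ^ (3/4 : ℝ)) :=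
          mul_le_mul_of_nonneg_left (mul_le_mul_of_nonneg_left hrp hK0) hlen0
      _ ≤ (δ * ((⌊x2 / δ⌋ : ℝ) - ⌊x1 / δ⌋)) * (c0 / 2 / Ci * (r:ℝ) ^ (3/4 : ℝ)) :=
          mul_le_mul_of_nonneg_right hlen (by positivity)
      _ = δ * (((⌊x2 / δ⌋ : ℝ) - ⌊x1 / δ⌋) * (c0 / 2 / Ci * (r:ℝ) ^ (3/4 : ℝ))) := by ring
      _ ≤ _ := mul_le_mul_of_nonneg_left hsum hδ.le

end Pool.Agent.N547.PN.Fst
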